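import Pool.Agent.W795.ES.Stm

/-! ES-PT: the pointwise inequality with finitely many directions removed. -/

set_option autoImplicit false

open scoped InnerProductSpace

namespace Pool.Agent.W271.ES

open Pool.Agent.W795.ES

section

variable {H K : Type} [NormedAddCommGroup H] [InnerProductSpace ℝ H]
    [NormedAddCommGroup K] [InnerProductSpace ℝ K]
    {W : Submodule ℝ (H × K)} {m : H → K} {B : H → H → K}

theorem tri_zero_left (hT : Tri W m B) (r : H × K) (hr : r ∈ W) : B 0 r.1 = 0 := by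
  have h := hT.linl 0 W.zero_mem 0 W.zero_mem r hr 1
  simp only [Prod.fst_zero, smul_zero, add_zero, one_smul] at h
  have h2 : B 0 r.1 + 0 = B 0 r.1 + B 0 r.1 := by rw [add_zero]; exact h
  exact (add_left_cancel h2).symm

theorem tri_add_left (hT : Tri W m B) {p q r : H × K} (hp : p ∈ W) (hq : q ∈ W) (hr : r ∈ W) :
    B (p.1 + q.1) r.1 = B p.1 r.1 + B q.1 r.1 := by
  have h := hT.linl p hp q hq r hr 1
  simpa only [one_smul] using h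

theorem tri_add_right (hT : Tri W m B) {p q r : H × K} (hp : p ∈ W) (hq : q ∈ W) (hr : r ∈ W) :
    B r.1 (p.1 + q.1) = B r.1 p.1 + B r.1 q.1 := by
  have h := hT.linr p hp q hq r hr 1
  simpa only [one_smul] using h

/-- the sum over the smooth elements is in `W`. -/
theorem sum_mem' {N : ℕ} {c : ℝ} {q : Fin N → H × K} (hq : ∀ j, Smo W B c (q j)) (a : Fin N → ℝ)
    (s : Finset (Fin N)) : ∑ j ∈ s, a j • q j ∈ W :=
  Submodule.sum_mem _ fun j _ => W.smul_mem _ (hq j).mem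

theorem fst_sum' {N : ℕ} (q : Fin N → H × K) (a : Fin N → ℝ)
    (s : Finset (Fin N)) : (∑ j ∈ s, a j • q j).1 = ∑ j ∈ s, a j • (q j).1 := by
  rw [Prod.fst_sum]; rfl

theorem snd_sum' {N : ℕ} (q : Fin N → H × K) (a : Fin N → ℝ)
    (s : Finset (Fin N)) : (∑ j ∈ s, a j • q j).2 = ∑ j ∈ s, a j • (q j).2 := by
  rw [Prod.snd_sum]; rfl

/-- testing against the sum. -/
theorem inner_sum_le {N : ℕ} {q : Fin N → H × K} {a : Fin N → ℝ} {η : ℝ}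
    (ha : ∀ j, |a j| ≤ η) (x : K) (d : ℝ) (hx : ∀ j, |⟪x, (q j).2⟫_ℝ| ≤ d) (hd : 0 ≤ d) :
    |⟪x, (∑ j, a j • q j).2⟫_ℝ| ≤ N * (η * d) := by
  rw [snd_sum', inner_sum]
  refine (Finset.abs_sum_le_sum_abs _ _).trans ?_
  calc ∑ j, |⟪x, a j • (q j).2⟫_ℝ| ≤ ∑ _j : Fin N, η * d := by
        refine Finset.sum_le_sum fun j _ => ?_
        rw [inner_smul_right, abs_mul]
        exact mul_le_mul (ha j) (hx j) (abs_nonneg _) ((abs_nonneg _).trans (ha j))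
    _ = N * (η * d) := by simp

/-- the drift bound for the sum. -/
theorem drift_sum (hT : Tri W m B) {N : ℕ} {c : ℝ} {q : Fin N → H × K}
    (hq : ∀ j, Smo W B c (q j)) (hc : 0 ≤ c) {a : Fin N → ℝ} {η : ℝ}
    (ha : ∀ j, |a j| ≤ η) {p r : H × K} (hp : p ∈ W) (hr : r ∈ W) :
    |⟪B (∑ j, a j • q j).1 p.1, r.2⟫_ℝ| ≤ N * (η * (c * (‖p.1‖ * ‖r.2‖))) := by
  have key : ∀ s : Finset (Fin N), |⟪B (∑ j ∈ s, a j • q j).1 p.1, r.2⟫_ℝ|
      ≤ ∑ _j ∈ s, (η * (c * (‖p.1‖ * ‖r.2‖))) := by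
    intro s
    induction s using Finset.induction_on with
    | empty =>
      simp only [Finset.sum_empty, Prod.fst_zero]
      rw [tri_zero_left hT p hp, inner_zero_left, abs_zero]
    | insert i s hi ih =>
      rw [Finset.sum_insert hi, Finset.sum_insert hi, add_comm (a i • q i)]
      have e1 : (∑ j ∈ s, a j • q j + a i • q i).1 = (∑ j ∈ s, a j • q j).1 + a i • (q i).1 := rfl
      rw [e1, hT.linl _ (sum_mem' hq a s) _ (hq i).mem _ hp (a i), inner_add_left,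
        real_inner_smul_left, add_comm (η * _)]
      refine (abs_add_le _ _).trans (add_le_add ih ?_)
      rw [abs_mul]
      exact mul_le_mul (ha i) ((hq i).drift p hp r hr) (abs_nonneg _)
        ((abs_nonneg _).trans (ha i))
  refine (key Finset.univ).trans_eq ?_
  simp

end

theorem proof : S_pt := by
  intro N ν δ c M hν hδ hc hM
  have hN : (0 : ℝ) ≤ N := Nat.cast_nonneg N
  set a' : ℝ := N * c * M with ha'
  set b' : ℝ := ν * N * c + N * c * M + 2 * c * M * N with hb'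
  refine ⟨1 / (δ * ν) + a' ^ 2 / (δ * ν) + b' ^ 2 / 2 + 6 * N ^ 2 * c * M, by positivity, ?_⟩
  intro H K _ _ _ _ W m B q p1 p2 w1 f Λ η hanti hT hq hon hp1 hp2 hM1 hM2 hw hΛ hη he hnum
  -- notation
  set w : H := p2.1 - p1.1 with hwdef
  set dz : K := p2.2 - p1.2 with hdz
  set ec : Fin N → ℝ := fun j => ⟪w, (q j).1⟫_ℝ with hec
  set E : H × K := ∑ j, ec j • q j with hE
  have hE1 : E.1 = ∑ j, ec j • (q j).1 := fst_sum' q ec Finset.univ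
  have hEW : E ∈ W := sum_mem' hq ec Finset.univ
  have hww : p2 - p1 ∈ W := W.sub_mem hp2 hp1
  set P : H × K := (p2 - p1) - E with hP
  have hPW : P ∈ W := W.sub_mem hww hEW
  have hP1 : w - ∑ j, ec j • (q j).1 = P.1 := by rw [← hE1]; rfl
  have hP1' : P.1 = w - E.1 := rfl
  have hP2 : P.2 = dz - E.2 := rfl
  have hgoal : (w - ∑ j, ⟪w, (q j).1⟫_ℝ • (q j).1) = P.1 := hP1
  rw [hgoal]
  -- orthogonality
  have horth : ∀ j, ⟪P.1, (q j).1⟫_ℝ = 0 := by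
    intro j
    rw [hP1', inner_sub_left, hE1, hon.inner_left_fintype]
    simp [hec]
  -- norm of e
  have hEn : ‖E.1‖ ≤ N * η := by
    rw [hE1]
    refine (norm_sum_le _ _).trans ?_
    calc ∑ j, ‖ec j • (q j).1‖ ≤ ∑ _j : Fin N, η := by
          refine Finset.sum_le_sum fun j _ => ?_
          rw [norm_smul, hon.1 j, mul_one]
          exact he j
      _ = N * η := by simp
  have hwn : ‖w‖ ≤ ‖P.1‖ + N * η := by
    have : w = P.1 + E.1 := by rw [hP1']; abel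
    rw [this]
    exact (norm_add_le _ _).trans (add_le_add le_rfl hEn)
  -- the equation
  rw [hw P hPW]
  -- pieces
  have h1 : ⟪f, P.2⟫_ℝ ≤ ‖f‖ * ‖P.2‖ := real_inner_le_norm _ _
  have h2 : ⟪dz, P.2⟫_ℝ = ‖P.2‖ ^ 2 + ⟪P.2, E.2⟫_ℝ := by
    have : dz = P.2 + E.2 := by rw [hP2]; abel
    conv_lhs => rw [this]
    rw [inner_add_left, real_inner_self_eq_norm_sq, real_inner_comm]
  have h2' : |⟪P.2, E.2⟫_ℝ| ≤ N * (η * (c * ‖P.1‖)) :=
    inner_sum_le he P.2 (c * ‖P.1‖) (fun j => (hq j).lap P hPW) (by positivity)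
  -- decomposition of B w w
  have hwd : w = P.1 + E.1 := by rw [hP1']; abel
  have hmw : m w = B P.1 P.1 + B P.1 E.1 + (B E.1 P.1 + B E.1 E.1) := by
    have e0 : B w w = m w := hT.diag (p2 - p1) hww
    have hPE : P + E ∈ W := W.add_mem hPW hEW
    have e1 : B (P.1 + E.1) (P + E).1 = B P.1 (P + E).1 + B E.1 (P + E).1 :=
      tri_add_left hT hPW hEW hPE
    have e2 : B P.1 (P.1 + E.1) = B P.1 P.1 + B P.1 E.1 := tri_add_right hT hPW hEW hPW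
    have e3 : B E.1 (P.1 + E.1) = B E.1 P.1 + B E.1 E.1 := tri_add_right hT hPW hEW hEW
    rw [← e0, hwd, ← e2, ← e3]
    exact e1
  have h3 : ⟪m p2.1 - m p1.1, dz⟫_ℝ = -⟪m w, p1.2⟫_ℝ := hanti p2 hp2 p1 hp1
  have h4 : -⟪B P.1 P.1, p1.2⟫_ℝ ≤ (1 - δ) * ν * ‖P.2‖ ^ 2 + Λ * ‖P.1‖ ^ 2 := by
    rw [hT.diag P hPW]
    exact hnum P hPW horth
  have h5 : -⟪B P.1 E.1, p1.2⟫_ℝ ≤ N * (η * (c * (‖P.1‖ * M))) := by
    rw [hT.anti P hPW E hEW p1 hp1, neg_neg]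
    refine (le_abs_self _).trans ?_
    refine inner_sum_le he _ (c * (‖P.1‖ * M)) (fun j => ?_) (by positivity)
    refine ((hq j).tri P hPW p1 hp1).trans ?_
    gcongr
  have h6 : -⟪B E.1 P.1, p1.2⟫_ℝ ≤ N * (η * (c * (M * ‖P.2‖))) := by
    rw [hT.anti E hEW P hPW p1 hp1, neg_neg]
    refine (le_abs_self _).trans ((drift_sum hT hq hc he hp1 hPW).trans ?_)
    gcongr
  have h7 : -⟪B E.1 E.1, p1.2⟫_ℝ ≤ N * (η * (c * (N * η * M))) := by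
    rw [hT.anti E hEW E hEW p1 hp1, neg_neg]
    refine (le_abs_self _).trans ?_
    refine inner_sum_le he _ (c * (N * η * M)) (fun j => ?_) (by positivity)
    refine ((hq j).tri E hEW p1 hp1).trans ?_
    gcongr
  -- the term tested with E
  have hmd : m p2.1 - m p1.1 = B w p2.1 + B p1.1 w := by
    have e0 : B p2.1 p2.1 = m p2.1 := hT.diag p2 hp2
    have e0' : B p1.1 p1.1 = m p1.1 := hT.diag p1 hp1
    have e1 : B (p1.1 + (p2 - p1).1) p2.1 = B p1.1 p2.1 + B (p2 - p1).1 p2.1 :=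
      tri_add_left hT hp1 hww hp2
    have e2 : B p1.1 (p1.1 + (p2 - p1).1) = B p1.1 p1.1 + B p1.1 (p2 - p1).1 :=
      tri_add_right hT hp1 hww hp1
    have e3 : p1.1 + (p2 - p1).1 = p2.1 := by
      rw [Prod.fst_sub]; abel
    rw [e3] at e1 e2
    have e4 : (p2 - p1).1 = w := rfl
    rw [e4] at e1 e2
    rw [← e0, ← e0', e1, e2]
    abel
  have h8 : -⟪m p2.1 - m p1.1, E.2⟫_ℝ ≤ N * (η * (2 * c * M * ‖w‖)) := by
    refine (neg_le_abs _).trans ?_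
    refine inner_sum_le he _ (2 * c * M * ‖w‖) (fun j => ?_) (by positivity)
    rw [hmd, inner_add_left]
    refine (abs_add_le _ _).trans ?_
    have a1 := (hq j).tri (p2 - p1) hww p2 hp2
    have a2 := (hq j).tri p1 hp1 (p2 - p1) hww
    have a1' : |⟪B w p2.1, (q j).2⟫_ℝ| ≤ c * (‖w‖ * M) := a1.trans (by
      have : ‖(p2 - p1).1‖ = ‖w‖ := rfl
      rw [this]; gcongr)
    have a2' : |⟪B p1.1 w, (q j).2⟫_ℝ| ≤ c * (M * ‖w‖) := a2.trans (by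
      have : ‖(p2 - p1).1‖ = ‖w‖ := rfl
      rw [this]; gcongr)
    linarith
  -- expand
  have hexp : ⟪f - ν • dz + (m p2.1 - m p1.1), P.2⟫_ℝ
      = ⟪f, P.2⟫_ℝ - ν * ⟪dz, P.2⟫_ℝ + (⟪m p2.1 - m p1.1, dz⟫_ℝ - ⟪m p2.1 - m p1.1, E.2⟫_ℝ) := by
    rw [inner_add_left, inner_sub_left, real_inner_smul_left,
      ← inner_sub_right (m p2.1 - m p1.1) dz E.2, ← hP2]
  have hmwi : ⟪m w, p1.2⟫_ℝ = ⟪B P.1 P.1, p1.2⟫_ℝ + ⟪B P.1 E.1, p1.2⟫_ℝ
      + (⟪B E.1 P.1, p1.2⟫_ℝ + ⟪B E.1 E.1, p1.2⟫_ℝ) := by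
    rw [hmw, inner_add_left, inner_add_left, inner_add_left]
  have hx : 0 ≤ ‖P.1‖ := norm_nonneg _
  have hy : 0 ≤ ‖P.2‖ := norm_nonneg _
  have hf : 0 ≤ ‖f‖ := norm_nonneg _
  generalize hxx : ‖P.1‖ = x at *
  generalize hyy : ‖P.2‖ = y at *
  generalize hff : ‖f‖ = F at *
  rw [hexp, h3, hmwi, h2]
  have h8' : -⟪m p2.1 - m p1.1, E.2⟫_ℝ ≤ N * (η * (2 * c * M * (x + N * η))) := by
    refine h8.trans ?_
    gcongr
  have h2'' : -⟪P.2, E.2⟫_ℝ ≤ N * (η * (c * x)) := (neg_le_abs _).trans h2'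
  have h2''' : -(ν * ⟪P.2, E.2⟫_ℝ) ≤ ν * (N * (η * (c * x))) := by
    have := mul_le_mul_of_nonneg_left h2'' hν.le
    linarith
  have hD : 0 < δ * ν := mul_pos hδ hν
  -- Young
  have y1 : (F + a' * η) * y ≤ δ * ν * y ^ 2 + (F ^ 2 + a' ^ 2 * η ^ 2) / (2 * (δ * ν)) := by
    have : 0 ≤ (2 * (δ * ν) * y - (F + a' * η)) ^ 2 + (F - a' * η) ^ 2 := by positivity
    rw [← sub_nonneg]
    have e : δ * ν * y ^ 2 + (F ^ 2 + a' ^ 2 * η ^ 2) / (2 * (δ * ν)) - (F + a' * η) * y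
      = ((2 * (δ * ν) * y - (F + a' * η)) ^ 2 + (F - a' * η) ^ 2) / (4 * (δ * ν)) := by
      field_simp
      ring
    rw [e]
    positivity
  have y2 : b' * η * x ≤ x ^ 2 + b' ^ 2 * η ^ 2 / 4 := by
    nlinarith [sq_nonneg (x - b' * η / 2)]
  have hA : (1 / (δ * ν) + a' ^ 2 / (δ * ν) + b' ^ 2 / 2 + 6 * N ^ 2 * c * M) * (F ^ 2 + η ^ 2)
      ≥ 2 * ((F ^ 2 + a' ^ 2 * η ^ 2) / (2 * (δ * ν))) + b' ^ 2 * η ^ 2 / 2
        + 6 * N ^ 2 * c * M * η ^ 2 := by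
    have e : (1 / (δ * ν) + a' ^ 2 / (δ * ν) + b' ^ 2 / 2 + 6 * N ^ 2 * c * M) * (F ^ 2 + η ^ 2)
      - (2 * ((F ^ 2 + a' ^ 2 * η ^ 2) / (2 * (δ * ν))) + b' ^ 2 * η ^ 2 / 2
        + 6 * N ^ 2 * c * M * η ^ 2)
      = 1 / (δ * ν) * η ^ 2 + (a' ^ 2 / (δ * ν) + b' ^ 2 / 2 + 6 * N ^ 2 * c * M) * F ^ 2 := by
      field_simp
      ring
    have : 0 ≤ 1 / (δ * ν) * η ^ 2
      + (a' ^ 2 / (δ * ν) + b' ^ 2 / 2 + 6 * N ^ 2 * c * M) * F ^ 2 := by positivity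
    linarith
  have tot : ⟪f, P.2⟫_ℝ - ν * (y ^ 2 + ⟪P.2, E.2⟫_ℝ)
      + (-(⟪B P.1 P.1, p1.2⟫_ℝ + ⟪B P.1 E.1, p1.2⟫_ℝ
      + (⟪B E.1 P.1, p1.2⟫_ℝ + ⟪B E.1 E.1, p1.2⟫_ℝ)) - ⟪m p2.1 - m p1.1, E.2⟫_ℝ)
      ≤ -(δ * ν * y ^ 2) + Λ * x ^ 2 + (F + a' * η) * y + b' * η * x
        + 3 * N ^ 2 * c * M * η ^ 2 := by
    rw [ha', hb']
    linarith
  linarith

end Pool.Agent.W271.ES
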